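import Pool.Agent.H91.Golomb

set_option autoImplicit false

open H91.Golomb in
theorem Pool.Agent.Results.MP_39cb5d_an.NonAffine.result :
    ∃ (r : ℕ) (φ : ℝ → ℝ), 2 ≤ r ∧ Continuous φ ∧ Monotone φ ∧
    (∀ x, φ (∑ j ∈ Finset.range r, φ (x - j)) = x) ∧ φ ≠ fun x => x / √r + (√r - 1) / 2 :=
  main
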